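import Pool.Agent.H622.Px3

/-!
# The average stopping time of the Collatz map on `F₂[x]` is `3 d + O(√(d log d))`

The average stopping time `ρ(d)` in degree `d` satisfies `ρ(d) / d → 3`, with the error term
`|ρ(d) - 3 d| ≤ 65000 √(d log d)`, and the stopping times are concentrated: for every `K` all but
`2 ^ d / d ^ K` of the `2 ^ d` polynomials `f` of degree `d` satisfy
`|t(f) - 3 d| ≤ 1000 (K + 6) ^ 2 √(d log d)`, and for every `ε > 0` all but `2 ^ d exp(- c √d)` of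
them satisfy `|t(f) - 3 d| ≤ ε d`.
-/

namespace Pool.Agent.Results.MP_d51b1e_co.SharpAsymptotic

open Polynomial Filter Topology

/-- The Collatz map on `F₂[x]`: `(x+1) f + 1` if `f(0) = 1`, and `f / x` if `f(0) = 0`. -/
noncomputable def T (f : (ZMod 2)[X]) : (ZMod 2)[X] :=
  if f.coeff 0 = 1 then (X + 1) * f + 1 else f.divX

/-- The stopping time: the least `k` with `T^k f = 1`. -/
noncomputable def tmin (f : (ZMod 2)[X]) : ℕ := sInf {k : ℕ | T^[k] f = 1}

/-- The average stopping time of the `2 ^ d` polynomials of degree exactly `d`. -/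
noncomputable def rho (d : ℕ) : ℝ :=
  (∑ᶠ f ∈ {f : (ZMod 2)[X] | f.degree = d}, (tmin f : ℝ)) / 2 ^ d

theorem T_eq : T = Pool.Agent.H622.Px.T := rfl

theorem tmin_eq : tmin = Pool.Agent.H622.Px.tmin := rfl

theorem set_eq (d : ℕ) :
    {f : (ZMod 2)[X] | f.degree = d} = ↑(Pool.Agent.H622.Px.F d) := by
  ext f
  rw [Set.mem_ofPred_eq, Finset.mem_coe, Pool.Agent.H622.Px.mem_F, Pool.Agent.H622.Px.isDeg_iff]

theorem rho_eq (d : ℕ) :
    rho d = (∑ f ∈ Pool.Agent.H622.Px.F d, (Pool.Agent.H622.Px.tmin f : ℝ)) / 2 ^ d := by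
  unfold rho
  rw [set_eq, finsum_mem_coe_finset, tmin_eq]

theorem rho_bound (d : ℕ) (hd : 2 ≤ d) : |rho d - 3 * d| ≤ 65000 * √(d * Real.log d) := by
  rw [rho_eq]
  exact Pool.Agent.H622.Px.mean_bound d hd

theorem tendsto_err : Tendsto (fun d : ℕ => 65000 * √((d : ℝ) * Real.log d) / d) atTop (𝓝 0) := by
  have h1 : Tendsto (fun d : ℕ => Real.log (d : ℝ) / d) atTop (𝓝 0) := by
    exact (Real.isLittleO_log_id_atTop.tendsto_div_nhds_zero).comp
      (tendsto_natCast_atTop_atTop (R := ℝ))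
  have h2 : Tendsto (fun d : ℕ => 65000 * √(Real.log (d : ℝ) / d)) atTop (𝓝 0) := by
    have := (h1.sqrt).const_mul 65000
    rwa [Real.sqrt_zero, mul_zero] at this
  refine h2.congr' ?_
  filter_upwards [eventually_ge_atTop 1] with d hd
  have hd0 : (0 : ℝ) < d := by exact_mod_cast hd
  rw [mul_div_assoc]
  congr 1
  rw [show Real.log (d : ℝ) / d = ((d : ℝ) * Real.log d) / d ^ 2 by field_simp,
    Real.sqrt_div' _ (by positivity), Real.sqrt_sq hd0.le]

theorem rho_lim : Tendsto (fun d : ℕ => rho d / d) atTop (𝓝 3) := by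
  rw [tendsto_iff_dist_tendsto_zero]
  refine squeeze_zero' (Eventually.of_forall fun _ => dist_nonneg) ?_ tendsto_err
  filter_upwards [eventually_ge_atTop 2] with d hd
  have hd0 : (0 : ℝ) < d := by
    have : 0 < d := by omega
    exact_mod_cast this
  rw [Real.dist_eq, show rho d / d - 3 = (rho d - 3 * d) / d by field_simp, abs_div,
    abs_of_pos hd0]
  exact div_le_div_of_nonneg_right (rho_bound d hd) hd0.le

theorem ncard_le (d : ℕ) (r μ : ℝ)
    (h : ∀ f, Pool.Agent.H622.Px.IsDeg f d → f ∉ Pool.Agent.H622.Px.AllBad d μ →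
      |(Pool.Agent.H622.Px.tmin f : ℝ) - 3 * d| ≤ r) :
    ({f : (ZMod 2)[X] | f.degree = d ∧ r < |(tmin f : ℝ) - 3 * d|}.ncard : ℝ) ≤
      (Pool.Agent.H622.Px.AllBad d μ).card := by
  have h1 : {f : (ZMod 2)[X] | f.degree = d ∧ r < |(tmin f : ℝ) - 3 * d|} ⊆
      ↑(Pool.Agent.H622.Px.AllBad d μ) := by
    rintro f ⟨hf, hr⟩
    by_contra hb
    exact absurd (h f ((Pool.Agent.H622.Px.isDeg_iff _ _).1 hf) (fun h' => hb (Finset.mem_coe.2 h')))
      (not_le.2 hr)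
  have h2 := Set.ncard_le_ncard h1 (Finset.finite_toSet _)
  rw [Set.ncard_coe_finset] at h2
  exact_mod_cast h2

theorem stretched (ε : ℝ) (hε : 0 < ε) : ∃ c : ℝ, 0 < c ∧ ∀ᶠ d : ℕ in atTop,
    ({f : (ZMod 2)[X] | f.degree = d ∧ ε * d < |(tmin f : ℝ) - 3 * d|}.ncard : ℝ) ≤
      2 ^ d * Real.exp (-(c * √d)) := by
  obtain ⟨a, ha, hae⟩ : ∃ a : ℝ, 0 < a ∧ 64 * a ^ 2 ≤ ε / 4 := by
    refine ⟨√(ε / 256), Real.sqrt_pos.2 (by positivity), ?_⟩
    rw [Real.sq_sqrt (by positivity)]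
    linarith
  refine ⟨a / 2, by positivity, ?_⟩
  -- real asymptotics in terms of `x = √d`
  have hsq : Tendsto (fun d : ℕ => √(d : ℝ)) atTop atTop :=
    Real.tendsto_sqrt_atTop.comp tendsto_natCast_atTop_atTop
  have h1 : ∀ᶠ x : ℝ in atTop, 16 * √(2 * a * x) * x + (4 * (2 * a * x) + 1) * (4 * (2 * a * x) + 2) ≤
      ε * x ^ 2 := by
    have h2 : ∀ᶠ x : ℝ in atTop, 16 * √(2 * a) ≤ ε / 4 * √x := by
      have := (Real.tendsto_sqrt_atTop.const_mul_atTop (show 0 < ε / 4 by positivity))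
      exact this.eventually_ge_atTop _
    filter_upwards [h2, eventually_ge_atTop (1 : ℝ), eventually_ge_atTop ((24 * a + 2) * 4 / ε)]
      with x hx hx1 hx2
    have hx0 : 0 ≤ x := by linarith
    have h3 : 16 * √(2 * a * x) * x ≤ ε / 4 * x ^ 2 := by
      rw [Real.sqrt_mul (by positivity)]
      have h5 : √x * √x = x := Real.mul_self_sqrt hx0
      have h6 : 16 * √(2 * a) * (√x * x) ≤ ε / 4 * √x * (√x * x) :=
        mul_le_mul_of_nonneg_right hx (by positivity)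
      calc _ = 16 * √(2 * a) * (√x * x) := by ring
        _ ≤ _ := h6
        _ = ε / 4 * (√x * √x) * x := by ring
        _ = _ := by rw [h5]; ring
    have h4 : (24 * a + 2) * 4 ≤ x * ε := by
      rwa [div_le_iff₀ hε] at hx2
    nlinarith
  have h2 : ∀ᶠ x : ℝ in atTop, x ^ 2 * ((x ^ 2 + 1) * (x ^ 2 + 2) + 1) * 2 ≤
      Real.exp (a / 2 * x) := by
    have h3 : Tendsto (fun x : ℝ => Real.exp (a / 2 * x) / x ^ (7 : ℕ)) atTop atTop := by
      have := tendsto_exp_mul_div_rpow_atTop 7 (a / 2) (by positivity)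
      refine this.congr' ?_
      filter_upwards with x
      norm_cast
    filter_upwards [h3.eventually_ge_atTop 1, eventually_ge_atTop (14 : ℝ)] with x hx hx1
    have hx0 : 0 < x := by linarith
    rw [le_div_iff₀ (by positivity), one_mul] at hx
    refine le_trans ?_ hx
    have h4 : (x ^ 2 + 1) * (x ^ 2 + 2) + 1 ≤ 7 * x ^ 4 := by
      have : (1 : ℝ) ≤ x ^ 2 := by nlinarith
      nlinarith
    calc x ^ 2 * ((x ^ 2 + 1) * (x ^ 2 + 2) + 1) * 2 ≤ x ^ 2 * (7 * x ^ 4) * 2 := by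
          have := mul_le_mul_of_nonneg_left h4 (show 0 ≤ x ^ 2 by positivity)
          linarith
      _ = 14 * x ^ 6 := by ring
      _ ≤ x * x ^ 6 := mul_le_mul_of_nonneg_right hx1 (by positivity)
      _ = x ^ 7 := by ring
  filter_upwards [hsq.eventually h1, hsq.eventually h2] with d hd1 hd2
  have hdd : √(d : ℝ) ^ 2 = d := Real.sq_sqrt (Nat.cast_nonneg d)
  set x := √(d : ℝ) with hx
  have hx0 : 0 ≤ x := Real.sqrt_nonneg _
  have hμ : √(2 * a * x) ^ 2 = 2 * a * x := Real.sq_sqrt (by positivity)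
  refine (ncard_le d (ε * d) (√(2 * a * x)) ?_).trans ?_
  · intro f hf hb
    refine (Pool.Agent.H622.Px.good_fin hf _ (Real.sqrt_nonneg _) hb).trans ?_
    rw [hμ, ← hx, ← hdd]
    exact hd1
  · refine (Pool.Agent.H622.Px.card_AllBad d _ (Real.sqrt_nonneg _)).trans ?_
    rw [hμ, ← hdd]
    have h5 : Real.exp (-(2 * a * x / 2)) = Real.exp (-(a / 2 * x)) * Real.exp (-(a / 2 * x)) := by
      rw [← Real.exp_add]
      congr 1
      ring
    have h6 : Real.exp (a / 2 * x) * Real.exp (-(a / 2 * x)) = 1 := by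
      rw [← Real.exp_add]
      simp
    rw [h5]
    have h7 := mul_le_mul_of_nonneg_right hd2 (Real.exp_pos (-(a / 2 * x))).le
    rw [h6] at h7
    calc x ^ 2 * ((x ^ 2 + 1) * (x ^ 2 + 2) + 1) *
          (2 ^ (d + 1) * (Real.exp (-(a / 2 * x)) * Real.exp (-(a / 2 * x))))
        = (x ^ 2 * ((x ^ 2 + 1) * (x ^ 2 + 2) + 1) * 2 * Real.exp (-(a / 2 * x))) *
          (2 ^ d * Real.exp (-(a / 2 * x))) := by rw [pow_succ]; ring
      _ ≤ 1 * (2 ^ d * Real.exp (-(a / 2 * x))) :=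
          mul_le_mul_of_nonneg_right h7 (by positivity)
      _ = _ := one_mul _

/-- **The average stopping time is asymptotic to `3 d`, and the stopping times concentrate.** -/
theorem result :
    (∀ f : (ZMod 2)[X], f ≠ 0 → ∃ k : ℕ, T^[k] f = 1) ∧
    (∃ c₁ c₂ : ℝ, 0 < c₁ ∧ c₁ ≤ c₂ ∧ ∀ᶠ d : ℕ in atTop, c₁ * d ≤ rho d ∧ rho d ≤ c₂ * d) ∧
    Tendsto (fun d : ℕ => rho d / d) atTop (𝓝 3) ∧
    (∀ d : ℕ, 2 ≤ d → |rho d - 3 * d| ≤ 65000 * √(d * Real.log d)) ∧
    (∀ K d : ℕ, 2 ≤ d →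
      ({f : (ZMod 2)[X] | f.degree = d ∧
        1000 * (K + 6) ^ 2 * √(d * Real.log d) < |(tmin f : ℝ) - 3 * d|}.ncard : ℝ) ≤
        2 ^ d / d ^ K) ∧
    (∀ ε : ℝ, 0 < ε → ∃ c : ℝ, 0 < c ∧ ∀ᶠ d : ℕ in atTop,
      ({f : (ZMod 2)[X] | f.degree = d ∧ ε * d < |(tmin f : ℝ) - 3 * d|}.ncard : ℝ) ≤
        2 ^ d * Real.exp (-(c * √d))) := by
  refine ⟨fun f hf => Pool.Agent.H622.Px.reach' hf, ⟨2, 4, by norm_num, by norm_num, ?_⟩,
    rho_lim, rho_bound, ?_, stretched⟩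
  · filter_upwards [rho_lim.eventually (lt_mem_nhds (show (2 : ℝ) < 3 by norm_num)),
      rho_lim.eventually (gt_mem_nhds (show (3 : ℝ) < 4 by norm_num)),
      eventually_ge_atTop 1] with d h1 h2 hd
    have hd0 : (0 : ℝ) < d := by exact_mod_cast hd
    rw [lt_div_iff₀ hd0] at h1
    rw [div_lt_iff₀ hd0] at h2
    exact ⟨h1.le, h2.le⟩
  · intro K d hd
    refine (ncard_le d _ (Pool.Agent.H622.Px.mu K d) ?_).trans
      (Pool.Agent.H622.Px.card_num K d hd)
    intro f hf hb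
    exact Pool.Agent.H622.Px.conc K d hd f hf hb

end Pool.Agent.Results.MP_d51b1e_co.SharpAsymptotic
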